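import Mathlib
import Pool.Agent.LeoG.UpStmts

/-!
# UPP: the main upper bound (forms of negative discriminant)
-/

set_option autoImplicit false

open NumberField IsDedekindDomain Module MeasureTheory Filter Topology
open Pool.Agent.LeoK

namespace Pool.Agent.LeoG.H91

theorem gval_scale (u : ℝ) (v : Q4 ℝ) (X Y : ℝ) :
    gval (fun i => u * v i) X Y = u * gval v X Y := by
  unfold gval
  ring

theorem gcov_scale (u : ℝ) (v : Q4 ℝ) (X Y : ℝ) :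
    gcov (fun i => u * v i) X Y = u ^ 3 * gcov v X Y := by
  unfold gcov
  ring

theorem mm_scale (u : ℝ) (v : Q4 ℝ) : mm (fun i => u * v i) = u ^ 4 * mm v := by
  unfold mm dsc
  ring

theorem hz_scale (u : ℝ) (hu : 0 < u) (v : Q4 ℝ) (hv : 0 < mm v) (X Y : ℝ) :
    hz (fun i => u * v i) X Y = hz v X Y := by
  have h1 : Real.sqrt (27 * (u ^ 4 * mm v)) = u ^ 2 * Real.sqrt (27 * mm v) := by
    rw [show 27 * (u ^ 4 * mm v) = (u ^ 2) ^ 2 * (27 * mm v) by ring,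
      Real.sqrt_mul (by positivity), Real.sqrt_sq (by positivity)]
  have h2 : 0 < Real.sqrt (27 * mm v) := Real.sqrt_pos.mpr (by linarith)
  have h3 : u ^ 3 * gcov v X Y / (u ^ 2 * Real.sqrt (27 * mm v)) =
      u * (gcov v X Y / Real.sqrt (27 * mm v)) := by
    field_simp
  have h4 : (u ^ 4 * mm v / 27) ^ (1 / 6 : ℝ) = u ^ (2 / 3 : ℝ) * (mm v / 27) ^ (1 / 6 : ℝ) := by
    rw [mul_div_assoc, Real.mul_rpow (by positivity) (by positivity), ← Real.rpow_natCast u 4,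
      ← Real.rpow_mul hu.le]
    norm_num
  have h5 : ∀ a : ℝ, |u * a / 2| ^ (2 / 3 : ℝ) = u ^ (2 / 3 : ℝ) * |a / 2| ^ (2 / 3 : ℝ) := by
    intro a
    rw [mul_div_assoc, abs_mul, abs_of_pos hu, Real.mul_rpow hu.le (abs_nonneg _)]
  have h6 : 0 < u ^ (2 / 3 : ℝ) := Real.rpow_pos_of_pos hu _
  unfold hz
  rw [gval_scale, gcov_scale, mm_scale, h1, h3, h4, ← mul_add, ← mul_sub, h5, h5, ← mul_add,
    show 2 * (u ^ (2 / 3 : ℝ) * (mm v / 27) ^ (1 / 6 : ℝ)) =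
      u ^ (2 / 3 : ℝ) * (2 * (mm v / 27) ^ (1 / 6 : ℝ)) by ring, mul_div_mul_left _ _ h6.ne']

variable {k : Type} [Field k] [NumberField k]

theorem map_mm (s : Sg k) (v : Q4 (𝓞 k)) : s ((mm v : 𝓞 k) : k) = mm (rl s v) := by
  unfold mm dsc rl
  simp only [map_sub, map_mul, map_pow, map_ofNat, map_neg, map_add]

theorem mm_w (s : Sg k) (v : Q4 (𝓞 k)) (u : ℝ) :
    mm (fun i : Fin 4 => u * s (v i : k)) = u ^ 4 * s ((mm v : 𝓞 k) : k) := by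
  rw [map_mm, ← mm_scale]
  rfl

theorem hz_w (s : Sg k) (v : Q4 (𝓞 k)) (hv : 0 < s ((mm v : 𝓞 k) : k)) (u : ℝ) (hu : 0 < u) :
    hz (fun i : Fin 4 => u * s (v i : k)) 1 0 = hg v 1 0 s := by
  rw [map_mm] at hv
  have h := hz_scale u hu (rl s v) hv 1 0
  refine Eq.trans h ?_
  have h1 : s ((1 : 𝓞 k) : k) = 1 := map_one s
  have h0 : s ((0 : 𝓞 k) : k) = 0 := map_zero s
  unfold hg
  rw [h1, h0]

theorem upp (ket : KetStmt) (sf4 : Sf4Stmt) (con : ConStmt) : UppStmt := by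
  intro k _ _ hk Φ N hN S T η ε hT hη hη1 hε
  obtain ⟨hcard, hD, hvF, hcF, hcmp, -⟩ := con k hk Φ
  have hn : 0 < finrank ℚ k := finrank_pos
  have hη2 : 0 < η * (η ^ (1 / finrank ℚ k : ℝ) / Φ.cF) ^ (1 / 4 : ℝ) := by positivity
  obtain ⟨K, hK, hKvol, hKmem⟩ := ket k hk Φ T
    (min η (η * (η ^ (1 / finrank ℚ k : ℝ) / Φ.cF) ^ (1 / 4 : ℝ))) hT (lt_min hη hη2)
  obtain ⟨t₀, ht₀, hcount⟩ := sf4 k hk Φ N hN S K hK ε hε
  refine ⟨max 1 (t₀ ^ (4 * finrank ℚ k)), le_max_left _ _, ?_⟩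
  intro Z hZ
  have hZ1 : 1 ≤ Z := (le_max_left _ _).trans hZ
  have hZ0 : 0 < Z := by linarith
  have hZt : t₀ ^ (4 * finrank ℚ k) ≤ Z := (le_max_right _ _).trans hZ
  have hn4 : 4 * finrank ℚ k ≠ 0 := by omega
  obtain ⟨t, ht0, htZ⟩ : ∃ t : ℝ, 0 < t ∧ t ^ (4 * finrank ℚ k) = Z := by
    refine ⟨Z ^ (((4 * finrank ℚ k : ℕ) : ℝ)⁻¹), Real.rpow_pos_of_pos hZ0 _, ?_⟩
    rw [Real.rpow_inv_natCast_pow hZ0.le hn4]
  have htt : t₀ ≤ t := by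
    rw [← htZ] at hZt
    exact (pow_le_pow_iff_left₀ ht₀.le ht0.le hn4).mp hZt
  obtain ⟨hfin, hle⟩ := hcount t htt
  rw [htZ] at hle
  have hsub : {v : Q4 (𝓞 k) | modQ N v ∈ S ∧ GReg Φ (ZSpan.fundamentalDomain Φ.B) Z T v ∧
        (∀ s : Sg k, η * s ((mm v : 𝓞 k) : k) ^ (1 / 4 : ℝ) ≤ |s (v 0 : k)|) ∧
        η * Z ≤ ∏ s : Sg k, s ((mm v : 𝓞 k) : k)} ⊆
      {v : Q4 (𝓞 k) | modQ N v ∈ S ∧ t⁻¹ • (fun (s : Sg k) (i : Fin 4) => s (v i : k)) ∈ K} := by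
    rintro v ⟨hvS, hR, ha, hZη⟩
    refine ⟨hvS, ?_⟩
    have hu : 0 < t⁻¹ := inv_pos.mpr ht0
    have hM : ∀ s : Sg k, 0 < s ((mm v : 𝓞 k) : k) := fun s => Φ.pos _ hR.mF s
    have hwF : (fun s : Sg k => t⁻¹ ^ 4 * s ((mm v : 𝓞 k) : k)) ∈ Φ.F :=
      Φ.scal _ hR.mF (t⁻¹ ^ 4) (by positivity)
    have hprod : ∏ s : Sg k, t⁻¹ ^ 4 * s ((mm v : 𝓞 k) : k) =
        (∏ s : Sg k, s ((mm v : 𝓞 k) : k)) / Z := by
      rw [Finset.prod_mul_distrib, Finset.prod_const, Finset.card_univ, hcard, ← pow_mul, inv_pow,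
        htZ, inv_mul_eq_div]
    have hprodη : η ≤ ∏ s : Sg k, t⁻¹ ^ 4 * s ((mm v : 𝓞 k) : k) := by
      rw [hprod, le_div_iff₀ hZ0]
      exact hZη
    have hw : t⁻¹ • (fun (s : Sg k) (i : Fin 4) => s (v i : k)) =
        fun (s : Sg k) (i : Fin 4) => t⁻¹ * s (v i : k) := rfl
    rw [hw]
    apply hKmem
    · intro s
      refine (min_le_right _ _).trans ?_
      show _ ≤ |t⁻¹ * s (v 0 : k)|
      rw [abs_mul, abs_of_pos hu]
      have h1 : η ^ (1 / finrank ℚ k : ℝ) / Φ.cF ≤ t⁻¹ ^ 4 * s ((mm v : 𝓞 k) : k) := by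
        rw [div_le_iff₀ (by linarith), mul_comm]
        refine le_trans ?_ (hcmp _ hwF s).2
        exact Real.rpow_le_rpow hη.le hprodη (by positivity)
      have h2 : (η ^ (1 / finrank ℚ k : ℝ) / Φ.cF) ^ (1 / 4 : ℝ) ≤
          (t⁻¹ ^ 4 * s ((mm v : 𝓞 k) : k)) ^ (1 / 4 : ℝ) :=
        Real.rpow_le_rpow (by positivity) h1 (by norm_num)
      have h3 : (t⁻¹ ^ 4 * s ((mm v : 𝓞 k) : k)) ^ (1 / 4 : ℝ) =
          t⁻¹ * s ((mm v : 𝓞 k) : k) ^ (1 / 4 : ℝ) := by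
        rw [Real.mul_rpow (by positivity) (hM s).le, ← Real.rpow_natCast t⁻¹ 4,
          ← Real.rpow_mul hu.le]
        norm_num
      calc η * (η ^ (1 / finrank ℚ k : ℝ) / Φ.cF) ^ (1 / 4 : ℝ)
          ≤ η * (t⁻¹ * s ((mm v : 𝓞 k) : k) ^ (1 / 4 : ℝ)) := by
            rw [← h3]
            exact mul_le_mul_of_nonneg_left h2 hη.le
        _ = t⁻¹ * (η * s ((mm v : 𝓞 k) : k) ^ (1 / 4 : ℝ)) := by ring
        _ ≤ t⁻¹ * |s (v 0 : k)| := mul_le_mul_of_nonneg_left (ha s) hu.le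
    · intro s
      rw [mm_w]
      have := hM s
      positivity
    · have h : (fun s : Sg k => t⁻¹ * s (v 1 : k) / (3 * (t⁻¹ * s (v 0 : k)))) =
          fun s : Sg k => s (v 1 : k) / (3 * s (v 0 : k)) := by
        funext s
        rw [show 3 * (t⁻¹ * s (v 0 : k)) = t⁻¹ * (3 * s (v 0 : k)) by ring,
          mul_div_mul_left _ _ hu.ne']
      show (fun s : Sg k => t⁻¹ * s (v 1 : k) / (3 * (t⁻¹ * s (v 0 : k)))) ∈ _
      rw [h]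
      exact hR.bG
    · have h : (fun s : Sg k => hz (fun i : Fin 4 => t⁻¹ * s (v i : k)) 1 0) = hg v 1 0 := by
        funext s
        exact hz_w s v (hM s) _ hu
      rw [h]
      exact hR.xF
    · refine le_trans (le_of_eq (Finset.prod_congr rfl fun s _ => ?_)) hR.xT
      exact hz_w s v (hM s) _ hu
    · simp only [mm_w]
      exact hwF
    · simp only [mm_w]
      exact (min_le_left _ _).trans hprodη
    · simp only [mm_w]
      rw [hprod, div_le_one hZ0]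
      exact hR.mZ
  refine ⟨hfin.subset hsub, ?_⟩
  have h1 : ({v : Q4 (𝓞 k) | modQ N v ∈ S ∧ GReg Φ (ZSpan.fundamentalDomain Φ.B) Z T v ∧
        (∀ s : Sg k, η * s ((mm v : 𝓞 k) : k) ^ (1 / 4 : ℝ) ≤ |s (v 0 : k)|) ∧
        η * Z ≤ ∏ s : Sg k, s ((mm v : 𝓞 k) : k)}.ncard : ℝ) ≤
      ({v : Q4 (𝓞 k) | modQ N v ∈ S ∧
        t⁻¹ • (fun (s : Sg k) (i : Fin 4) => s (v i : k)) ∈ K}.ncard : ℝ) :=
    Nat.cast_le.mpr (Set.ncard_le_ncard hsub hfin)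
  refine h1.trans (hle.trans ?_)
  apply mul_le_mul_of_nonneg_right _ hZ0.le
  have h2 : (S.ncard : ℝ) / (Ideal.absNorm N : ℝ) ^ 4 * (volume K).toReal / Φ.D ^ 4 ≤
      (S.ncard : ℝ) / (Ideal.absNorm N : ℝ) ^ 4 *
        (Real.pi ^ finrank ℚ k * Φ.D * (T * Φ.vF) * Φ.vF) / Φ.D ^ 4 := by
    apply div_le_div_of_nonneg_right _ (by positivity)
    exact mul_le_mul_of_nonneg_left hKvol (by positivity)
  have h3 : (S.ncard : ℝ) / (Ideal.absNorm N : ℝ) ^ 4 *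
        (Real.pi ^ finrank ℚ k * Φ.D * (T * Φ.vF) * Φ.vF) / Φ.D ^ 4 =
      (S.ncard : ℝ) / (Ideal.absNorm N : ℝ) ^ 4 *
        (Real.pi ^ finrank ℚ k * T * Φ.vF ^ 2 / Φ.D ^ 3) := by
    rw [mul_div_assoc]
    congr 1
    field_simp
  rw [h3] at h2
  linarith

end Pool.Agent.LeoG.H91
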